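import Pool.Agent.H384R3.SPk.Defs

/-! Task `D` of project SPK384: the product set induction. -/

set_option autoImplicit false

namespace Pool.Agent.H384R3.SPk

open Finset

namespace TD

theorem val_prod {p : ℕ} [Fact p.Prime] {n : ℕ} (s : Finset (Fin n)) (f : Fin n → ℤ)
    (h : ∀ i, f i ≠ 0) : padicValInt p (∏ i ∈ s, f i) = ∑ i ∈ s, padicValInt p (f i) := by
  classical
  induction s using Finset.induction_on with
  | empty => simp [padicValInt]
  | insert a s ha ih =>
    rw [Finset.prod_insert ha, Finset.sum_insert ha,
      padicValInt.mul (h a) (Finset.prod_ne_zero_iff.2 fun i _ => h i), ih]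

theorem mem_prodset {n : ℕ} (A : Fin n → Finset ℤ) (x : ℤ) :
    x ∈ prodset A ↔ ∃ f : Fin n → ℤ, (∀ i, f i ∈ A i) ∧ ∏ i, f i = x := by
  classical
  simp [prodset, Fintype.mem_piFinset]

theorem natAbs_eq_of_padic {a b : ℤ} (ha : a ≠ 0) (hb : b ≠ 0)
    (h : ∀ p : ℕ, p.Prime → padicValInt p a = padicValInt p b) : a.natAbs = b.natAbs := by
  rw [Nat.eq_iff_prime_padicValNat_eq _ _ (Int.natAbs_ne_zero.2 ha) (Int.natAbs_ne_zero.2 hb)]
  intro p hp
  exact h p hp

theorem prodset_mono {n : ℕ} {A B : Fin n → Finset ℤ} (h : ∀ i, A i ⊆ B i) :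
    prodset A ⊆ prodset B := by
  intro x hx
  rw [mem_prodset] at hx ⊢
  obtain ⟨f, hf, rfl⟩ := hx
  exact ⟨f, fun i => h i (hf i), rfl⟩

end TD

open TD in
theorem taskD : TaskD := by
  classical
  intro n hn P hP0 hsplit hone
  suffices H : ∀ N : ℕ, ∀ A : Fin n → Finset ℤ, ∑ i, (A i).card ≤ N → (∀ i, (A i).Nonempty) →
      (∀ i, ∀ a ∈ A i, 0 < a) → ∏ i, P (A i) ≤ ((prodset A).card : ℝ) from
    fun A h1 h2 => H _ A le_rfl h1 h2
  intro N
  induction N with
  | zero =>
    intro A hN hne _
    exfalso
    have h1 : (A ⟨0, hn⟩).card ≤ ∑ i, (A i).card :=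
      Finset.single_le_sum (f := fun i => (A i).card) (fun i _ => Nat.zero_le _)
        (Finset.mem_univ _)
    have h2 := (hne ⟨0, hn⟩).card_pos
    omega
  | succ N ih =>
    intro A hN hne hpos
    by_cases hcase : ∀ p : ℕ, p.Prime → ∀ i, ∀ a ∈ A i, ∀ a' ∈ A i,
        padicValInt p a = padicValInt p a'
    · have h1 : ∀ i, P (A i) ≤ 1 := by
        intro i
        obtain ⟨a, ha⟩ := hne i
        have hs : A i = {a} := by
          refine Finset.eq_singleton_iff_unique_mem.2 ⟨ha, fun b hb => ?_⟩
          have h0 := hpos i a ha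
          have h0' := hpos i b hb
          have := natAbs_eq_of_padic h0'.ne' h0.ne' (fun p hp => hcase p hp i b hb a ha)
          omega
        rw [hs]
        exact hone a (hpos i a ha)
      have h2 : ∏ i, P (A i) ≤ 1 := Finset.prod_le_one (fun i _ => hP0 _) (fun i _ => h1 i)
      have h3 : (prodset A).Nonempty := by
        choose f hf using hne
        exact ⟨∏ i, f i, (mem_prodset A _).2 ⟨f, hf, rfl⟩⟩
      have h4 : (1 : ℝ) ≤ ((prodset A).card : ℝ) := by exact_mod_cast h3.card_pos
      linarith
    · push Not at hcase
      obtain ⟨p, hp, i₀, a, ha, a', ha', hne'⟩ := hcase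
      haveI : Fact p.Prime := ⟨hp⟩
      have hch : ∀ i, ∃ (j : ℕ) (A₀ A₁ : Finset ℤ), A₀.Nonempty ∧ Disjoint A₀ A₁ ∧
          A₀ ∪ A₁ = A i ∧ (∀ a ∈ A₀, padicValInt p a = j) ∧ (∀ a ∈ A₁, j < padicValInt p a) := by
        intro i
        obtain ⟨b, hb, hmin⟩ := Finset.exists_min_image (A i) (padicValInt p) (hne i)
        refine ⟨padicValInt p b, (A i).filter (fun a => padicValInt p a = padicValInt p b),
          (A i).filter (fun a => ¬ padicValInt p a = padicValInt p b),
          ⟨b, Finset.mem_filter.2 ⟨hb, rfl⟩⟩, Finset.disjoint_filter_filter_not _ _ _,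
          Finset.filter_union_filter_not_eq _ _,
          fun a ha => (Finset.mem_filter.1 ha).2, fun a ha => ?_⟩
        rw [Finset.mem_filter] at ha
        exact lt_of_le_of_ne (hmin a ha.1) (Ne.symm ha.2)
      choose j A₀ A₁ hA₀ hdis hun hv0 hv1 using hch
      have hs0 : ∀ i, A₀ i ⊆ A i := fun i => (hun i) ▸ Finset.subset_union_left
      have hs1 : ∀ i, A₁ i ⊆ A i := fun i => (hun i) ▸ Finset.subset_union_right
      have hcard : ∀ i, (A₀ i).card + (A₁ i).card = (A i).card := fun i => by
        rw [← hun i, Finset.card_union_of_disjoint (hdis i)]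
      -- the set of indices which split
      have hI : (Finset.univ.filter fun i => (A₁ i).Nonempty).Nonempty := by
        refine ⟨i₀, Finset.mem_filter.2 ⟨Finset.mem_univ _, ?_⟩⟩
        by_contra hemp
        rw [Finset.not_nonempty_iff_eq_empty] at hemp
        have h0 : A₀ i₀ = A i₀ := by rw [← hun i₀, hemp, Finset.union_empty]
        apply hne'
        rw [hv0 i₀ a (h0 ▸ ha), hv0 i₀ a' (h0 ▸ ha')]
      by_cases hzero : ∃ i, P (A i) = 0
      · obtain ⟨i, hi⟩ := hzero
        rw [Finset.prod_eq_zero (Finset.mem_univ i) hi]
        exact Nat.cast_nonneg _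
      push Not at hzero
      have hPpos : ∀ i, 0 < P (A i) := fun i => lt_of_le_of_ne (hP0 _) (hzero i).symm
      obtain ⟨k, hk, hmax⟩ := Finset.exists_max_image
        (Finset.univ.filter fun i => (A₁ i).Nonempty) (fun i => P (A₁ i) / P (A i)) hI
      have hk1 : (A₁ k).Nonempty := (Finset.mem_filter.1 hk).2
      set b : ℝ := P (A₁ k) / P (A k) with hb
      have hb0 : 0 ≤ b := div_nonneg (hP0 _) (hPpos k).le
      -- the lower bound
      have hlow : ∀ i, (1 - b) * P (A i) ^ n ≤ P (A₀ i) ^ n := by
        intro i
        by_cases hi : (A₁ i).Nonempty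
        · have h1 := hsplit p (A i) (A₀ i) (A₁ i) (j i) hp (hpos i) (hA₀ i) hi (hdis i) (hun i)
            (hv0 i) (hv1 i)
          have h2 : P (A₁ i) / P (A i) ≤ b :=
            hmax i (Finset.mem_filter.2 ⟨Finset.mem_univ _, hi⟩)
          have h3 : P (A₁ i) * P (A i) ^ (n - 1) = P (A₁ i) / P (A i) * P (A i) ^ n := by
            have e : P (A i) ^ n = P (A i) ^ (n - 1) * P (A i) := by
              rw [← pow_succ, Nat.sub_add_cancel hn]
            rw [e]
            have := (hPpos i).ne'
            field_simp
          have h4 : P (A₁ i) / P (A i) * P (A i) ^ n ≤ b * P (A i) ^ n :=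
            mul_le_mul_of_nonneg_right h2 (pow_nonneg (hP0 _) _)
          rw [h3] at h1
          linarith
        · rw [Finset.not_nonempty_iff_eq_empty] at hi
          have h0 : A₀ i = A i := by rw [← hun i, hi, Finset.union_empty]
          rw [h0]
          have := mul_nonneg hb0 (pow_nonneg (hP0 (A i)) n)
          linarith
      -- the two subsets of the product set
      set A' : Fin n → Finset ℤ := Function.update A k (A₁ k) with hA'
      have hA's : ∀ i, A' i ⊆ A i := by
        intro i
        by_cases hik : i = k
        · subst hik; rw [hA', Function.update_self]; exact hs1 i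
        · rw [hA', Function.update_of_ne hik]
      have hA'ne : ∀ i, (A' i).Nonempty := by
        intro i
        by_cases hik : i = k
        · subst hik; rw [hA', Function.update_self]; exact hk1
        · rw [hA', Function.update_of_ne hik]; exact hne i
      have hprodA' : ∏ i, P (A' i) = b * ∏ i, P (A i) := by
        rw [← Finset.mul_prod_erase Finset.univ (fun i => P (A' i)) (Finset.mem_univ k),
          ← Finset.mul_prod_erase Finset.univ (fun i => P (A i)) (Finset.mem_univ k)]
        have e1 : P (A' k) = b * P (A k) := by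
          rw [hA', Function.update_self, hb]
          have := (hPpos k).ne'
          field_simp
        have e2 : ∏ i ∈ Finset.univ.erase k, P (A' i) = ∏ i ∈ Finset.univ.erase k, P (A i) := by
          apply Finset.prod_congr rfl
          intro i hi
          rw [hA', Function.update_of_ne (Finset.ne_of_mem_erase hi)]
        rw [e1, e2]
        ring
      have hc0 := hA₀ k
      have hlt0 : ∑ i, (A₀ i).card < ∑ i, (A i).card := by
        apply Finset.sum_lt_sum (fun i _ => Finset.card_le_card (hs0 i))
        refine ⟨k, Finset.mem_univ _, ?_⟩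
        have := hcard k
        have := hk1.card_pos
        omega
      have hlt1 : ∑ i, (A' i).card < ∑ i, (A i).card := by
        apply Finset.sum_lt_sum (fun i _ => Finset.card_le_card (hA's i))
        refine ⟨k, Finset.mem_univ _, ?_⟩
        rw [hA', Function.update_self]
        have := hcard k
        have := hc0.card_pos
        omega
      have ih0 := ih A₀ (by omega) hA₀ (fun i a ha => hpos i a (hs0 i ha))
      have ih1 := ih A' (by omega) hA'ne (fun i a ha => hpos i a (hA's i ha))
      rw [hprodA'] at ih1
      have hcardle : ((prodset A₀).card : ℝ) + ((prodset A').card : ℝ) ≤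
          ((prodset A).card : ℝ) := by
        have hd : Disjoint (prodset A₀) (prodset A') := by
          rw [Finset.disjoint_left]
          intro x hx hx'
          rw [mem_prodset] at hx hx'
          obtain ⟨f, hf, hfx⟩ := hx
          obtain ⟨g, hg, hgx⟩ := hx'
          have v1 : padicValInt p x = ∑ i, j i := by
            rw [← hfx, val_prod Finset.univ f (fun i => (hpos i _ (hs0 i (hf i))).ne')]
            exact Finset.sum_congr rfl fun i _ => hv0 i _ (hf i)
          have v2 : ∑ i, j i < padicValInt p x := by
            rw [← hgx, val_prod Finset.univ g (fun i => (hpos i _ (hA's i (hg i))).ne')]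
            apply Finset.sum_lt_sum
            · intro i _
              have := hA's i (hg i)
              rw [← hun i, Finset.mem_union] at this
              rcases this with h | h
              · exact (hv0 i _ h).ge
              · exact (hv1 i _ h).le
            · refine ⟨k, Finset.mem_univ _, ?_⟩
              have := hg k
              rw [hA', Function.update_self] at this
              exact hv1 k _ this
          omega
        have hle : (prodset A₀).card + (prodset A').card ≤ (prodset A).card := by
          rw [← Finset.card_union_of_disjoint hd]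
          exact Finset.card_le_card (Finset.union_subset (prodset_mono hs0) (prodset_mono hA's))
        exact_mod_cast hle
      have hprodpos : 0 ≤ ∏ i, P (A i) := Finset.prod_nonneg fun i _ => hP0 _
      have hprod0pos : 0 ≤ ∏ i, P (A₀ i) := Finset.prod_nonneg fun i _ => hP0 _
      rcases le_or_gt (1 - b) 0 with h1b | h1b
      · have : ∏ i, P (A i) ≤ b * ∏ i, P (A i) := by nlinarith
        have : (0 : ℝ) ≤ ((prodset A₀).card : ℝ) := Nat.cast_nonneg _
        linarith
      · have hpow : ((1 - b) * ∏ i, P (A i)) ^ n ≤ (∏ i, P (A₀ i)) ^ n := by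
          have e1 : ((1 - b) * ∏ i, P (A i)) ^ n = ∏ i, ((1 - b) * P (A i) ^ n) := by
            rw [mul_pow, ← Finset.prod_pow, Finset.prod_mul_distrib, Finset.prod_const,
              Finset.card_univ, Fintype.card_fin]
          have e2 : (∏ i, P (A₀ i)) ^ n = ∏ i, P (A₀ i) ^ n := by
            rw [← Finset.prod_pow]
          rw [e1, e2]
          apply Finset.prod_le_prod
          · intro i _
            exact mul_nonneg h1b.le (pow_nonneg (hP0 _) _)
          · intro i _
            exact hlow i
        have h2 : (1 - b) * ∏ i, P (A i) ≤ ∏ i, P (A₀ i) :=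
          le_of_pow_le_pow_left₀ (by omega) hprod0pos hpow
        linarith

end Pool.Agent.H384R3.SPk
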